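import Pool.Agent.Y284.ID.Bundled

/-!
MP_2b2a50_an, Q1, negated form: a Banach operator ideal `A` and a Banach space `X` such that `X`
satisfies `(P_1)` for `A` but does not have the `λ`-BAP for `A` for any `λ`.

The definitions `Ban`, `Op`, `FinRank`, `rankOne`, `IdealData`, `IsBanachIdeal`, `LimsupLE`,
`HasBAPFor`, `CondP` and `HasAP` are in `Pool.Agent.Y284.ID.Bundled`.
-/

set_option autoImplicit false

namespace Pool.Agent.Results.MP_2b2a50_an.Counterexample

open Pool.Agent.Y284.IDB

/-- Over `ℝ` and over `ℂ`: for the ideal `A` of approximable operators (the norm closure of the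
finite-rank operators, with the operator norm) every Banach space satisfies `(P_1)`, but there is
a Banach space `X`, even one with the approximation property, which fails the `λ`-BAP for `A` for
every `λ`. -/
theorem result : ∀ (𝕜 : Type) [RCLike 𝕜], ∃ A : IdealData 𝕜, IsBanachIdeal A ∧
    (∀ (X Y : Ban 𝕜) (T : Op X Y), A.nrm X Y T = ‖T‖ ∧
      (T ∈ A.mem X Y ↔ T ∈ closure {S : Op X Y | FinRank S})) ∧
    (∀ X : Ban 𝕜, CondP A 1 X) ∧
    ∃ X : Ban 𝕜, HasAP X ∧ CondP A 1 X ∧ ∀ lam : ℝ, ¬ HasBAPFor A lam X := by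
  intro 𝕜 _
  exact ⟨approx 𝕜, isBanachIdeal_approx 𝕜, fun X Y T => ⟨rfl, Iff.rfl⟩, condP_approx, main 𝕜⟩

end Pool.Agent.Results.MP_2b2a50_an.Counterexample
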